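import Pool.Agent.H83.ZS.Z2a

/-!
# Z2: the zero side of the second comparison function

Section (1a) of /team-store/H69_F_beyond.md: `expl` for `F1 = Fof (b2 …) y`; the error term is bounded by `z2_B0`, the pole by `z2_pole`, the zeros outside
`(0, T]` by `z2_tail` and `sum_w`, and the sum over the primes is exact (`tsum_bgf`).
-/

open MeasureTheory Finset H69LB
open scoped ContDiff

namespace H69BG

theorem z2_growth (C M : ℝ) (hC : 0 ≤ C) : ∃ T0 : ℝ, 1 ≤ T0 ∧ ∀ T, T0 ≤ T →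
    M ≤ Real.log T ∧ C * T ^ (19 / 20 : ℝ) ≤ T := by
  have h2 : ∀ᶠ T : ℝ in Filter.atTop, M ≤ Real.log T := Real.tendsto_log_atTop.eventually_ge_atTop _
  have h3 : ∀ᶠ T : ℝ in Filter.atTop, C ≤ T ^ (1 / 20 : ℝ) :=
    (tendsto_rpow_atTop (by norm_num : (0:ℝ) < 1 / 20)).eventually_ge_atTop C
  obtain ⟨T0, hT0⟩ := Filter.eventually_atTop.1 (h2.and h3)
  refine ⟨max T0 1, le_max_right _ _, fun T hT => ?_⟩
  obtain ⟨h2, h3⟩ := hT0 T ((le_max_left _ _).trans hT)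
  have hT1 : 1 ≤ T := (le_max_right _ _).trans hT
  have hT0' : 0 < T := by linarith
  refine ⟨h2, ?_⟩
  calc C * T ^ (19 / 20 : ℝ) ≤ T ^ (1 / 20 : ℝ) * T ^ (19 / 20 : ℝ) := by gcongr
    _ = T := by
        rw [← Real.rpow_add hT0']
        norm_num

/-- the three powers -/
theorem z2_pows {T α : ℝ} (hT : 1 ≤ T) (hα : α ∈ Set.Icc 1 (1 + uu)) :
    (T ^ α) ^ (3 * uu) ≤ T ^ (19 / 20 : ℝ) ∧ (T ^ α) ^ (1 + 3 * uu) / T ^ 2 ≤ T ^ (19 / 20 : ℝ) ∧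
      T * (T ^ α) ^ (1 / 2 + 3 * uu) * T ^ (-(3 / 5) : ℝ) ≤ T ^ (19 / 20 : ℝ) := by
  have hT0 : 0 < T := by linarith
  obtain ⟨h1, h2⟩ := hα
  have hu : uu = 1 / 100000 := rfl
  rw [hu] at h2 ⊢
  refine ⟨?_, ?_, ?_⟩
  · rw [← Real.rpow_mul hT0.le]
    refine Real.rpow_le_rpow_of_exponent_le hT ?_
    nlinarith
  · rw [← Real.rpow_mul hT0.le, ← Real.rpow_natCast T 2, ← Real.rpow_sub hT0]
    refine Real.rpow_le_rpow_of_exponent_le hT ?_
    push_cast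
    nlinarith
  · rw [← Real.rpow_mul hT0.le]
    nth_rewrite 1 [← Real.rpow_one T]
    rw [← Real.rpow_add hT0, ← Real.rpow_add hT0]
    refine Real.rpow_le_rpow_of_exponent_le hT ?_
    nlinarith

theorem zside2 {ι : Type} [Countable ι] {γ w : ι → ℝ} {F : ℝ → Finset ι} {A : ℝ → ℝ} {k0 : ℝ}
    (Z : Zer γ w F A k0) {η1 η2 : ℝ} {χ : ℝ → ℝ} (h : Pc η1 η2 χ) (P : Par) (hP : P.Ok) {M : ℝ} (hM : 0 < M)
    (hM1 : -M ≤ η1) (hM2 : η2 ≤ M) (hcH : P.cH = 2 * Real.pi * Real.exp η2 / (1 - P.δ)) {φ : ℝ → ℝ} (hφ : PH φ) :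
    ∃ T0 : ℝ, ∀ T, T0 ≤ T → ∀ α ∈ Set.Icc 1 (1 + uu),
      ‖(∑ i ∈ F T, (w i : ℂ) * PsiF (Fof (b2 φ χ M P T α) (α * Real.log T)) (γ i))
        - 2 * Real.pi * psW (Wof χ) M (T ^ α)
          (fun n => (starRingEnd ℂ) (be2 φ M (T ^ α) (HH P T α) n))‖ ≤ T := by
  obtain ⟨C1, hC1, hex⟩ := expl Z
  have hW : WS M (Wof χ) := Wof_WS h hM1 hM2
  obtain ⟨C2, T2, hC2, hT21, hB0⟩ := z2_B0 hφ M
  obtain ⟨C3, T3, hC3, hT31, hpole⟩ := z2_pole h P hP hM1 hM2 hφ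
  obtain ⟨C4, T4, hC4, hT41, htail⟩ := z2_tail h P hP (M := M) hcH hφ
  obtain ⟨C5, hC5, hsw⟩ := sum_w Z
  set IW : ℝ := ∫ η, |Wof χ η| with hIWd
  have hIW : 0 ≤ IW := integral_nonneg fun _ => abs_nonneg _
  have hc := hP.cH_pos
  obtain ⟨T5, hT51, hgr⟩ := z2_growth (C1 * (2 * Real.pi * (C2 * (1 + 1 / P.cH)) * IW) + C3 + C4 * C5) (M + 1)
    (by positivity)
  refine ⟨max (max T2 T3) (max T4 T5), fun T hT α hα => ?_⟩
  have hT2 : T2 ≤ T := le_trans (le_trans (le_max_left _ _) (le_max_left _ _)) hT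
  have hT3 : T3 ≤ T := le_trans (le_trans (le_max_right _ _) (le_max_left _ _)) hT
  have hT4 : T4 ≤ T := le_trans (le_trans (le_max_left _ _) (le_max_right _ _)) hT
  have hT5 : T5 ≤ T := le_trans (le_trans (le_max_right _ _) (le_max_right _ _)) hT
  obtain ⟨hLM, hbig⟩ := hgr T hT5
  have hT1 : 1 ≤ T := hT51.trans hT5
  have hT0 : 0 < T := by linarith
  have hα1 : 1 ≤ α := hα.1
  obtain ⟨hH, hH1, hxH⟩ := z2_H P hP hT1 hα1
  have hxT : T ≤ T ^ α := by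
    calc T = T ^ (1 : ℝ) := (Real.rpow_one T).symm
      _ ≤ T ^ α := Real.rpow_le_rpow_of_exponent_le hT1 hα1
  obtain ⟨q1, q2, q3⟩ := z2_pows hT1 hα
  have hL : 0 ≤ Real.log T := Real.log_nonneg hT1
  have hy : M + 1 ≤ α * Real.log T := by nlinarith
  have hzero : ∀ ξ ≤ 1, Fof (b2 φ χ M P T α) (α * Real.log T) ξ = 0 := fun ξ hξ => by
    rw [b2_eq]
    exact Fof_bgf_zero h _ hM1 (by linarith)
  have hBs : ContDiff ℝ ∞ (be2 φ M (T ^ α) (HH P T α)) := by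
    rw [be2_eq]
    exact bet2_smooth hφ hH _ _
  have hsm : ContDiff ℝ ∞ (Fof (b2 φ χ M P T α) (α * Real.log T)) := by
    rw [b2_eq]
    exact Fof_bgf_smooth h hBs T α
  have hcp : HasCompactSupport (Fof (b2 φ χ M P T α) (α * Real.log T)) := by
    rw [b2_eq]
    exact Fof_bgf_compact h _ T α
  obtain ⟨hsum, hexp⟩ := hex _ hsm hcp hzero
  set K : ℝ := T ^ (19 / 20 : ℝ) with hK
  have hK0 : 0 ≤ K := by positivity
  -- the error term
  have herr : C1 * ∫ ξ, ‖Fof (b2 φ χ M P T α) (α * Real.log T) ξ‖ * Real.exp (-(ξ / 2)) ≤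
      C1 * (2 * Real.pi * (C2 * (1 + 1 / P.cH)) * IW) * K := by
    have hb : ∀ v, ‖be2 φ M (T ^ α) (HH P T α) v‖ ≤ C2 * (1 + 1 / P.cH) * K := fun v =>
      (hB0 (T ^ α) (hT2.trans hxT) _ hH v).trans (by gcongr)
    have h1 := err_bgf h hb T α
    rw [← b2_eq] at h1
    calc C1 * ∫ ξ, ‖Fof (b2 φ χ M P T α) (α * Real.log T) ξ‖ * Real.exp (-(ξ / 2))
        ≤ C1 * (2 * Real.pi * (C2 * (1 + 1 / P.cH) * K) * IW) := by gcongr
      _ = _ := by ring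
  -- the pole
  have hpol : ‖∫ ξ, Fof (b2 φ χ M P T α) (α * Real.log T) ξ * ((Real.exp (ξ / 2) : ℝ) : ℂ)‖ ≤ C3 * K :=
    (hpole T hT3 α hα1).trans (by gcongr)
  -- the tail
  set a : ι → ℂ := fun i => (w i : ℂ) * PsiF (Fof (b2 φ χ M P T α) (α * Real.log T)) (γ i) with ha
  have hna : ∀ i, ‖a i‖ = w i * ‖PsiF (Fof (b2 φ χ M P T α) (α * Real.log T)) (γ i)‖ := by
    intro i
    rw [ha]
    simp only
    rw [norm_mul, Complex.norm_real, Real.norm_eq_abs, abs_of_nonneg (Z.w_nonneg i)]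
  have hsa : Summable a := by
    refine Summable.of_norm ?_
    refine hsum.congr fun i => ?_
    rw [hna i]
  obtain ⟨hsw1, hsw2⟩ := hsw T hT1
  classical
  have htl : ‖(∑' i, a i) - ∑ i ∈ F T, a i‖ ≤ C4 * C5 * K := by
    have h1 : (∑' i, a i) - ∑ i ∈ F T, a i = ∑' i, (if i ∈ F T then 0 else a i) := by
      have h2 : ∑ i ∈ F T, a i = ∑' i, (if i ∈ F T then a i else 0) := by
        rw [tsum_eq_sum (s := F T)]
        · exact Finset.sum_congr rfl fun i hi => by rw [if_pos hi]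
        · intro i hi
          rw [if_neg hi]
      have h3 : Summable fun i => (if i ∈ F T then a i else 0) :=
        summable_of_ne_finset_zero (s := F T) fun i hi => by rw [if_neg hi]
      rw [h2, ← hsa.tsum_sub h3]
      refine tsum_congr fun i => ?_
      split_ifs <;> simp
    rw [h1]
    have h4 : ∀ i, ‖(if i ∈ F T then 0 else a i)‖ ≤
        C4 * (T * (T ^ α) ^ (1 / 2 + 3 * uu)) * (w i / (T ^ 2 + γ i ^ 2)) := by
      intro i
      have hwi := Z.w_nonneg i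
      split_ifs with hi
      · rw [norm_zero]; positivity
      · rw [hna i]
        have hg : γ i ≤ 0 ∨ T < γ i := by
          rw [Z.mem_F, not_and_or, not_lt, not_le] at hi
          exact hi
        have h5 := htail T hT4 α hα1 (γ i) hg
        calc w i * ‖PsiF (Fof (b2 φ χ M P T α) (α * Real.log T)) (γ i)‖
            ≤ w i * (C4 * (T * (T ^ α) ^ (1 / 2 + 3 * uu)) / (T ^ 2 + γ i ^ 2)) := by gcongr
          _ = _ := by ring
    refine (tsum_of_norm_bounded (hsw1.mul_left _).hasSum h4).trans ?_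
    rw [tsum_mul_left]
    calc C4 * (T * (T ^ α) ^ (1 / 2 + 3 * uu)) * ∑' i, w i / (T ^ 2 + γ i ^ 2)
        ≤ C4 * (T * (T ^ α) ^ (1 / 2 + 3 * uu)) * (C5 * T ^ (-(3 / 5) : ℝ)) := by gcongr
      _ = C4 * C5 * (T * (T ^ α) ^ (1 / 2 + 3 * uu) * T ^ (-(3 / 5) : ℝ)) := by ring
      _ ≤ C4 * C5 * K := by gcongr
  have hts : ∑' n : ℕ, ((ArithmeticFunction.vonMangoldt n * (n : ℝ) ^ (-(1 / 2) : ℝ) : ℝ) : ℂ) *
      Fof (b2 φ χ M P T α) (α * Real.log T) (Real.log n) =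
    -(2 * Real.pi * psW (Wof χ) M (T ^ α) (fun n => (starRingEnd ℂ) (be2 φ M (T ^ α) (HH P T α) n))) := by
    rw [b2_eq]
    exact tsum_bgf hM hW _ hT0 α
  rw [hts] at hexp
  set B : ℂ := ∫ ξ, Fof (b2 φ χ M P T α) (α * Real.log T) ξ * ((Real.exp (ξ / 2) : ℝ) : ℂ) with hB
  set Q : ℂ := 2 * Real.pi * psW (Wof χ) M (T ^ α)
    (fun n => (starRingEnd ℂ) (be2 φ M (T ^ α) (HH P T α) n)) with hQ
  have hid : (∑ i ∈ F T, a i) - Q = ((∑' i, a i) - B + -Q) + B - ((∑' i, a i) - ∑ i ∈ F T, a i) := by ring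
  rw [hid]
  refine (norm_sub_le _ _).trans ?_
  have h6 := norm_add_le ((∑' i, a i) - B + -Q) B
  have h7 := hexp.trans herr
  have h8 : C1 * (2 * Real.pi * (C2 * (1 + 1 / P.cH)) * IW) * K + C3 * K + C4 * C5 * K ≤ T := by
    refine le_trans (le_of_eq ?_) hbig
    ring
  linarith

end H69BG
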