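import Pool.Agent.H69.BG.Ana
import Pool.Agent.H69.LB.Zpr

/-!
# Zero side of the second comparison function: definitions

Section (1a) of /team-store/H69_F_beyond.md.  `bet2 φ H N c v = ∑_{1 ≤ m ≤ N} c(m) Φ_H(v - m)` (general coefficients; `Ph φ H` is `Φ_H` of
`Pool/Agent/H69/BG/Ana.lean`).
-/

open MeasureTheory Finset H69LB
open scoped ContDiff

namespace H69BG

/-- `β₂(v) = ∑_{1 ≤ m ≤ N} c(m) Φ_H(v - m)` -/
noncomputable def bet2 (φ : ℝ → ℝ) (H : ℝ) (N : ℕ) (c : ℕ → ℝ) (v : ℝ) : ℂ :=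
  ∑ m ∈ Icc 1 N, (c m : ℂ) * Ph φ H (v - m)

end H69BG
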