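import Pool.Agent.H83.ZS.Defs

/-!
# SWP: interchange of the integrals over `η` and `θ`

`conj Φ_H(x e^η - m) = ∫ φ(Hθ) e(θm) e(-θ x e^η) dθ` (`integral_conj`, `conj (ee t) = ee (-t)`), so the integral is
`∫_η ∫_θ V(η) φ(Hθ) ee(θ m) exp(i(gη - 2π x θ e^η)) dθ dη`. The integrand is continuous with compact support in `(η, θ)` (`V`, `φ(H·)` continuous with
compact support), so `MeasureTheory.integral_integral_swap_of_hasCompactSupport` gives
`= ∫_θ φ(Hθ) ee(θ m) (∫_η V(η) exp(i(gη - 2π x θ e^η)) dη) dθ`; its norm is `≤ ∫ φ(Hθ) B dθ = (B/H) ∫ φ`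
(`norm_integral_le_of_norm_le`; `φ(Hθ) = 0` unless `1/4 < Hθ < 1/2`; `‖ee‖ = 1`; `Measure.integral_comp_mul_left`).
-/

open MeasureTheory Finset H69LB
open scoped ContDiff

namespace H69BG

theorem SWP_ee_cont : Continuous ee := by
  unfold ee
  fun_prop

theorem SWP_norm (t : ℝ) : ‖ee t‖ = 1 := by
  unfold ee
  rw [show 2 * (Real.pi : ℂ) * (t : ℂ) * Complex.I = ((2 * Real.pi * t : ℝ) : ℂ) * Complex.I by
    push_cast; ring]
  exact Complex.norm_exp_ofReal_mul_I _

theorem SWP_conj (t : ℝ) : (starRingEnd ℂ) (ee t) = ee (-t) := by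
  unfold ee
  rw [← Complex.exp_conj]
  congr 1
  rw [show 2 * (Real.pi : ℂ) * (t : ℂ) * Complex.I = ((2 * Real.pi * t : ℝ) : ℂ) * Complex.I by
    push_cast; ring, map_mul, Complex.conj_ofReal, Complex.conj_I]
  push_cast
  ring

theorem SWP_cs {φ : ℝ → ℝ} (hφ : PH φ) : HasCompactSupport φ :=
  HasCompactSupport.intro (isCompact_Icc (a := (1:ℝ) / 4) (b := 1 / 2)) fun t ht =>
    hφ.zero t (by
      by_contra h
      push Not at h
      exact ht ⟨h.1.le, h.2.le⟩)

theorem swp {φ : ℝ → ℝ} (hφ : PH φ) {V : ℝ → ℂ} (hV : Continuous V) (hVc : HasCompactSupport V) {H : ℝ} (hH : 0 < H)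
    {m x g B : ℝ} (hB : ∀ θ : ℝ, 1 / (4 * H) ≤ θ → θ ≤ 1 / (2 * H) →
      ‖∫ η, V η * Complex.exp (Complex.I * ((g * η - 2 * Real.pi * x * θ * Real.exp η : ℝ) : ℂ))‖ ≤ B) :
    ‖∫ η, V η * ((starRingEnd ℂ) (Ph φ H (x * Real.exp η - m)) * Complex.exp (Complex.I * ((g * η : ℝ) : ℂ)))‖
      ≤ (∫ t, φ t) / H * B := by
  have hφc : Continuous φ := hφ.smooth.continuous
  obtain ⟨G, hG⟩ : ∃ G : ℝ → ℝ → ℂ, G = fun η θ => V η * Complex.exp (Complex.I * ((g * η : ℝ) : ℂ)) *
    ((φ (H * θ) : ℂ) * ee (θ * (m - x * Real.exp η))) := ⟨_, rfl⟩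
  have hGc : Continuous (Function.uncurry G) := by
    rw [hG]
    refine Continuous.mul (Continuous.mul (hV.comp continuous_fst) ?_)
      (Continuous.mul ?_ (SWP_ee_cont.comp ?_))
    · fun_prop
    · exact Complex.continuous_ofReal.comp (hφc.comp (continuous_const.mul continuous_snd))
    · fun_prop
  have hGs : HasCompactSupport (Function.uncurry G) := by
    refine HasCompactSupport.intro
      (hVc.isCompact.prod (isCompact_Icc (a := 1 / (4 * H)) (b := 1 / (2 * H)))) ?_
    rintro ⟨η, θ⟩ hp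
    rw [Set.mem_prod, not_and_or] at hp
    simp only [Function.uncurry, hG]
    rcases hp with hp | hp
    · have h1 : V η = 0 := image_eq_zero_of_notMem_tsupport hp
      rw [h1, zero_mul, zero_mul]
    · have h1 : φ (H * θ) = 0 := by
        refine hφ.zero _ ?_
        by_contra h
        push Not at h
        refine hp ⟨?_, ?_⟩
        · show 1 / (4 * H) ≤ θ
          rw [div_le_iff₀ (by positivity)]
          linarith [h.1]
        · show θ ≤ 1 / (2 * H)
          rw [le_div_iff₀ (by positivity)]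
          linarith [h.2]
      rw [h1, Complex.ofReal_zero, zero_mul, mul_zero]
  have h1 : ∀ η, V η * ((starRingEnd ℂ) (Ph φ H (x * Real.exp η - m)) *
      Complex.exp (Complex.I * ((g * η : ℝ) : ℂ))) = ∫ θ, G η θ := by
    intro η
    simp only [hG]
    rw [integral_const_mul]
    have h2 : (starRingEnd ℂ) (Ph φ H (x * Real.exp η - m)) =
        ∫ θ, (φ (H * θ) : ℂ) * ee (θ * (m - x * Real.exp η)) := by
      unfold Ph
      rw [← integral_conj]
      refine integral_congr_ae (Filter.Eventually.of_forall fun θ => ?_)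
      simp only
      rw [map_mul, Complex.conj_ofReal, SWP_conj]
      congr 2
      ring
    rw [h2]
    ring
  have h3 : ∀ θ, ∫ η, G η θ = (φ (H * θ) : ℂ) * ee (θ * m) *
      ∫ η, V η * Complex.exp (Complex.I * ((g * η - 2 * Real.pi * x * θ * Real.exp η : ℝ) : ℂ)) := by
    intro θ
    rw [← integral_const_mul]
    refine integral_congr_ae (Filter.Eventually.of_forall fun η => ?_)
    simp only [hG]
    have h4 : ee (θ * (m - x * Real.exp η)) * Complex.exp (Complex.I * ((g * η : ℝ) : ℂ)) =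
        ee (θ * m) * Complex.exp (Complex.I *
          ((g * η - 2 * Real.pi * x * θ * Real.exp η : ℝ) : ℂ)) := by
      unfold ee
      rw [← Complex.exp_add, ← Complex.exp_add]
      congr 1
      push_cast
      ring
    calc V η * Complex.exp (Complex.I * ((g * η : ℝ) : ℂ)) *
          ((φ (H * θ) : ℂ) * ee (θ * (m - x * Real.exp η)))
        = V η * (φ (H * θ) : ℂ) * (ee (θ * (m - x * Real.exp η)) *
            Complex.exp (Complex.I * ((g * η : ℝ) : ℂ))) := by ring
      _ = _ := by rw [h4]; ring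
  have h5 : ∫ η, V η * ((starRingEnd ℂ) (Ph φ H (x * Real.exp η - m)) *
      Complex.exp (Complex.I * ((g * η : ℝ) : ℂ))) = ∫ θ, ∫ η, G η θ := by
    rw [← integral_integral_swap_of_hasCompactSupport hGc hGs]
    exact integral_congr_ae (Filter.Eventually.of_forall h1)
  rw [h5]
  have hint : Integrable (fun θ => φ (H * θ) * B) := by
    refine Integrable.mul_const ?_ _
    exact (hφc.integrable_of_hasCompactSupport (SWP_cs hφ)).comp_mul_left' hH.ne'
  have h6 : ‖∫ θ, ∫ η, G η θ‖ ≤ ∫ θ, φ (H * θ) * B := by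
    refine norm_integral_le_of_norm_le hint (Filter.Eventually.of_forall fun θ => ?_)
    rw [h3, norm_mul, norm_mul, SWP_norm, mul_one, Complex.norm_real,
      Real.norm_of_nonneg (hφ.nonneg _)]
    by_cases h0 : φ (H * θ) = 0
    · rw [h0, zero_mul, zero_mul]
    · refine mul_le_mul_of_nonneg_left (hB θ ?_ ?_) (hφ.nonneg _)
      · rw [div_le_iff₀ (by positivity)]
        by_contra h
        push Not at h
        exact h0 (hφ.zero _ (Or.inl (by linarith)))
      · rw [le_div_iff₀ (by positivity)]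
        by_contra h
        push Not at h
        exact h0 (hφ.zero _ (Or.inr (by linarith)))
  refine h6.trans (le_of_eq ?_)
  rw [integral_mul_const, Measure.integral_comp_mul_left, abs_of_pos (inv_pos.2 hH), smul_eq_mul]
  ring

end H69BG
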