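import Pool.Agent.H69.BG.Phk
import Pool.Agent.H83.ZS.Swp

/-!
# PSF: the test function of a comparison function `- e^{ξ/2} e^{-|ξ-y|} χ(ξ-y) B(e^ξ)`
-/

open MeasureTheory Finset H69LB
open scoped ContDiff

namespace H69BG

/-- comparison function with a general factor `B` -/
noncomputable def bgf (χ : ℝ → ℝ) (B : ℝ → ℂ) (T α ξ : ℝ) : ℂ :=
  -(((Real.exp (ξ / 2) * Real.exp (-|ξ - α * Real.log T|) * χ (ξ - α * Real.log T) : ℝ) : ℂ) *
    B (Real.exp ξ))

theorem be2_eq (φ : ℝ → ℝ) (M x H : ℝ) :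
    be2 φ M x H = bet2 φ H (NN (M + 1) x) (fun m => g2 x m) := rfl

theorem b2_eq (φ χ : ℝ → ℝ) (M : ℝ) (P : Par) (T α : ℝ) :
    b2 φ χ M P T α = bgf χ (be2 φ M (T ^ α) (HH P T α)) T α := rfl

theorem psf_Wof_smooth {η1 η2 : ℝ} {χ : ℝ → ℝ} (h : Pc η1 η2 χ) : ContDiff ℝ ∞ (Wof χ) := by
  have h1 : -(max (-η1) η2) ≤ η1 := by
    have := le_max_left (-η1) η2
    linarith
  exact (Wof_WS h h1 (le_max_right _ _)).smooth

theorem psf_Wof_zero {η1 η2 : ℝ} {χ : ℝ → ℝ} (h : Pc η1 η2 χ) (η : ℝ)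
    (hη : η ≤ η1 ∨ η2 ≤ η) : Wof χ η = 0 := by
  unfold Wof
  rw [h.zero η hη, mul_zero]

theorem bet2_smooth {φ : ℝ → ℝ} (hφ : PH φ) {H : ℝ} (hH : 0 < H) (N : ℕ) (c : ℕ → ℝ) :
    ContDiff ℝ ∞ (bet2 φ H N c) := by
  have h := Ph_smooth hφ hH
  unfold bet2
  refine ContDiff.sum fun m _ => contDiff_const.mul (h.comp ?_)
  fun_prop

theorem bgf_continuous {η1 η2 : ℝ} {χ : ℝ → ℝ} (h : Pc η1 η2 χ) {B : ℝ → ℂ} (hB : Continuous B) (T α : ℝ) :
    Continuous (bgf χ B T α) := by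
  have hχ : Continuous χ := h.smooth.continuous
  unfold bgf
  fun_prop

theorem bgf_compact {η1 η2 : ℝ} {χ : ℝ → ℝ} (h : Pc η1 η2 χ) (B : ℝ → ℂ) (T α : ℝ) :
    HasCompactSupport (bgf χ B T α) := by
  refine HasCompactSupport.intro (isCompact_Icc (a := α * Real.log T + η1)
    (b := α * Real.log T + η2)) fun ξ hξ => ?_
  have h0 : χ (ξ - α * Real.log T) = 0 := by
    refine h.zero _ ?_
    by_contra hc
    push Not at hc
    exact hξ ⟨by linarith [hc.1], by linarith [hc.2]⟩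
  unfold bgf
  rw [h0, mul_zero, Complex.ofReal_zero, zero_mul, neg_zero]

theorem Fof_bgf (χ : ℝ → ℝ) (B : ℝ → ℂ) (T α ξ : ℝ) :
    Fof (bgf χ B T α) (α * Real.log T) ξ
      = -(((2 * Real.pi * Real.exp (ξ / 2) * Wof χ (ξ - α * Real.log T) : ℝ) : ℂ) *
        (starRingEnd ℂ) (B (Real.exp ξ))) := by
  have h1 : (starRingEnd ℂ) (bgf χ B T α ξ) =
      -(((Real.exp (ξ / 2) * Real.exp (-|ξ - α * Real.log T|) * χ (ξ - α * Real.log T) : ℝ) : ℂ) *
      (starRingEnd ℂ) (B (Real.exp ξ))) := by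
    unfold bgf
    rw [map_neg, map_mul, Complex.conj_ofReal]
  unfold Fof
  rw [h1]
  have h2 : 2 * Real.pi * Real.exp (ξ / 2) * Wof χ (ξ - α * Real.log T) =
      2 * Real.pi * Real.exp (-|ξ - α * Real.log T|) *
      (Real.exp (ξ / 2) * Real.exp (-|ξ - α * Real.log T|) * χ (ξ - α * Real.log T)) := by
    have h3 : Real.exp (-(2 * |ξ - α * Real.log T|)) =
        Real.exp (-|ξ - α * Real.log T|) * Real.exp (-|ξ - α * Real.log T|) := by
      rw [← Real.exp_add]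
      congr 1
      ring
    unfold Wof
    rw [h3]
    ring
  rw [h2]
  push_cast
  ring

theorem Fof_bgf_smooth {η1 η2 : ℝ} {χ : ℝ → ℝ} (h : Pc η1 η2 χ) {B : ℝ → ℂ} (hB : ContDiff ℝ ∞ B) (T α : ℝ) :
    ContDiff ℝ ∞ (Fof (bgf χ B T α) (α * Real.log T)) := by
  have e : Fof (bgf χ B T α) (α * Real.log T) = fun ξ =>
      -(((2 * Real.pi * Real.exp (ξ / 2) * Wof χ (ξ - α * Real.log T) : ℝ) : ℂ) *
        (starRingEnd ℂ) (B (Real.exp ξ))) := by
    funext ξ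
    exact Fof_bgf χ B T α ξ
  rw [e]
  have hW := psf_Wof_smooth h
  have h1 : ContDiff ℝ ∞ fun ξ : ℝ => 2 * Real.pi * Real.exp (ξ / 2) * Wof χ (ξ - α * Real.log T) := by
    have h2 : ContDiff ℝ ∞ fun ξ : ℝ => Wof χ (ξ - α * Real.log T) :=
      hW.comp (contDiff_id.sub contDiff_const)
    exact (by fun_prop : ContDiff ℝ ∞ fun ξ : ℝ => 2 * Real.pi * Real.exp (ξ / 2)).mul h2
  have h3 : ContDiff ℝ ∞ fun ξ : ℝ =>
      ((2 * Real.pi * Real.exp (ξ / 2) * Wof χ (ξ - α * Real.log T) : ℝ) : ℂ) :=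
    Complex.ofRealCLM.contDiff.comp h1
  have h4 : ContDiff ℝ ∞ fun ξ : ℝ => (starRingEnd ℂ) (B (Real.exp ξ)) := by
    have h5 : ContDiff ℝ ∞ fun ξ : ℝ => B (Real.exp ξ) := hB.comp Real.contDiff_exp
    exact Complex.conjCLE.contDiff.comp h5
  exact (h3.mul h4).neg

theorem Fof_bgf_compact {η1 η2 : ℝ} {χ : ℝ → ℝ} (h : Pc η1 η2 χ) (B : ℝ → ℂ) (T α : ℝ) :
    HasCompactSupport (Fof (bgf χ B T α) (α * Real.log T)) := by
  refine HasCompactSupport.intro (isCompact_Icc (a := η1 + α * Real.log T) (b := η2 + α * Real.log T))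
    fun ξ hξ => ?_
  have h5 : Wof χ (ξ - α * Real.log T) = 0 := by
    refine psf_Wof_zero h _ ?_
    rw [Set.mem_Icc, not_and_or, not_le, not_le] at hξ
    rcases hξ with h1 | h1
    · left; linarith
    · right; linarith
  rw [Fof_bgf, h5]
  simp

theorem Fof_bgf_zero {η1 η2 : ℝ} {χ : ℝ → ℝ} (h : Pc η1 η2 χ) (B : ℝ → ℂ) {M : ℝ} (hM1 : -M ≤ η1)
    {T α ξ : ℝ} (h2 : ξ ≤ α * Real.log T - M) : Fof (bgf χ B T α) (α * Real.log T) ξ = 0 := by
  have h5 : Wof χ (ξ - α * Real.log T) = 0 := psf_Wof_zero h _ (Or.inl (by linarith))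
  rw [Fof_bgf, h5]
  simp

theorem PsiF_bgf (χ : ℝ → ℝ) (B : ℝ → ℂ) {T : ℝ} (hT : 0 < T) (α g : ℝ) :
    PsiF (Fof (bgf χ B T α) (α * Real.log T)) g
      = -(2 * Real.pi * ((Real.sqrt (T ^ α) : ℝ) : ℂ) * Complex.exp (Complex.I * ((α * Real.log T * g : ℝ) : ℂ)) *
        ∫ η, ((Real.exp (η / 2) * Wof χ η : ℝ) : ℂ) *
          ((starRingEnd ℂ) (B (T ^ α * Real.exp η)) * Complex.exp (Complex.I * ((g * η : ℝ) : ℂ)))) := by
  set y : ℝ := α * Real.log T with hy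
  have hexp : Real.exp y = T ^ α := by
    rw [hy, Real.rpow_def_of_pos hT, mul_comm]
  have hsq : Real.sqrt (T ^ α) = Real.exp (y / 2) := by
    rw [← hexp, Real.exp_half]
  rw [← integral_const_mul, ← integral_neg]
  unfold PsiF
  rw [← integral_add_left_eq_self _ y]
  congr 1
  funext η
  have e0 := Fof_bgf χ B T α (y + η)
  rw [← hy] at e0
  rw [e0, add_sub_cancel_left]
  have e1 : Real.exp ((y + η) / 2) = Real.sqrt (T ^ α) * Real.exp (η / 2) := by
    rw [hsq, ← Real.exp_add]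
    congr 1
    ring
  have e2 : Real.exp (y + η) = T ^ α * Real.exp η := by
    rw [Real.exp_add, hexp]
  have e3 : Complex.exp (Complex.I * (((y + η) * g : ℝ) : ℂ)) =
      Complex.exp (Complex.I * ((y * g : ℝ) : ℂ)) * Complex.exp (Complex.I * ((g * η : ℝ) : ℂ)) := by
    rw [← Complex.exp_add]
    congr 1
    push_cast
    ring
  rw [e1, e2, e3]
  push_cast
  ring

theorem pole_bgf (χ : ℝ → ℝ) (B : ℝ → ℂ) {T : ℝ} (hT : 0 < T) (α : ℝ) :
    ∫ ξ, Fof (bgf χ B T α) (α * Real.log T) ξ * ((Real.exp (ξ / 2) : ℝ) : ℂ) =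
      -(2 * Real.pi * ((T ^ α : ℝ) : ℂ)) *
        ∫ η, ((Wof χ η * Real.exp η : ℝ) : ℂ) *
          ((starRingEnd ℂ) (B (T ^ α * Real.exp η)) * Complex.exp (Complex.I * ((0 * η : ℝ) : ℂ))) := by
  have hy : Real.exp (α * Real.log T) = T ^ α := by
    rw [Real.rpow_def_of_pos hT, mul_comm]
  rw [← integral_const_mul]
  rw [← integral_sub_right_eq_self (μ := volume) (fun η => -(2 * Real.pi * ((T ^ α : ℝ) : ℂ)) *
    (((Wof χ η * Real.exp η : ℝ) : ℂ) *
      ((starRingEnd ℂ) (B (T ^ α * Real.exp η)) * Complex.exp (Complex.I * ((0 * η : ℝ) : ℂ)))))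
    (α * Real.log T)]
  congr 1
  funext ξ
  rw [Fof_bgf]
  have h2 : T ^ α * Real.exp (ξ - α * Real.log T) = Real.exp ξ := by
    rw [← hy, ← Real.exp_add]; congr 1; ring
  have h3 : ((Real.exp (ξ / 2) : ℝ) : ℂ) * ((Real.exp (ξ / 2) : ℝ) : ℂ) =
      ((T ^ α : ℝ) : ℂ) * ((Real.exp (ξ - α * Real.log T) : ℝ) : ℂ) := by
    rw [← Complex.ofReal_mul, ← Complex.ofReal_mul, h2, ← Real.exp_add]; congr 2; ring
  rw [h2, zero_mul, Complex.ofReal_zero, mul_zero, Complex.exp_zero, mul_one]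
  push_cast
  push_cast at h3
  linear_combination (-(2 * (Real.pi : ℂ) * (Wof χ (ξ - α * Real.log T) : ℂ) *
    (starRingEnd ℂ) (B (Real.exp ξ)))) * h3

theorem tsum_bgf {M : ℝ} {χ : ℝ → ℝ} (hM : 0 < M) (hW : WS M (Wof χ)) (B : ℝ → ℂ) {T : ℝ} (hT : 0 < T)
    (α : ℝ) :
    ∑' n : ℕ, ((ArithmeticFunction.vonMangoldt n * (n : ℝ) ^ (-(1 / 2) : ℝ) : ℝ) : ℂ) *
      Fof (bgf χ B T α) (α * Real.log T) (Real.log n) =
    -(2 * Real.pi * psW (Wof χ) M (T ^ α) (fun n => (starRingEnd ℂ) (B n))) := by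
  have hx : 0 < T ^ α := Real.rpow_pos_of_pos hT α
  have hlx : Real.log (T ^ α) = α * Real.log T := Real.log_rpow hT α
  rw [tsum_eq_sum (s := Finset.Icc 1 (NN M (T ^ α)))]
  · unfold psW
    rw [Finset.mul_sum, ← Finset.sum_neg_distrib]
    refine Finset.sum_congr rfl fun n hn => ?_
    rw [Finset.mem_Icc] at hn
    have hn0 : (0 : ℝ) < n := by exact_mod_cast hn.1
    rw [Fof_bgf, Real.log_div hn0.ne' hx.ne', hlx, Real.exp_log hn0]
    have h1 : (n : ℝ) ^ (-(1 / 2) : ℝ) * Real.exp (Real.log n / 2) = 1 := by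
      rw [Real.rpow_def_of_pos hn0, ← Real.exp_add]
      rw [show Real.log n * (-(1 / 2)) + Real.log n / 2 = 0 by ring, Real.exp_zero]
    have h2 : (((n : ℝ) ^ (-(1 / 2) : ℝ) : ℝ) : ℂ) * ((Real.exp (Real.log n / 2) : ℝ) : ℂ) = 1 := by
      rw [← Complex.ofReal_mul, h1, Complex.ofReal_one]
    push_cast at h2 ⊢
    linear_combination (-(2 * (Real.pi : ℂ) * (ArithmeticFunction.vonMangoldt n : ℂ) *
      (Wof χ (Real.log n - α * Real.log T) : ℂ) * (starRingEnd ℂ) (B n))) * h2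
  · intro n hn
    rcases Nat.eq_zero_or_pos n with rfl | h0
    · simp
    · have h1 : NN M (T ^ α) < n := by
        by_contra h
        exact hn (Finset.mem_Icc.2 ⟨h0, not_lt.1 h⟩)
      have hn0 : (0 : ℝ) < n := by exact_mod_cast h0
      have h2 : T ^ α * Real.exp M < n := (Nat.floor_lt (by positivity)).1 h1
      have h3 : α * Real.log T + M ≤ Real.log n := by
        have h4 := Real.log_le_log (by positivity) h2.le
        rwa [Real.log_mul hx.ne' (Real.exp_pos M).ne', Real.log_exp, hlx] at h4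
      have h5 : Wof χ (Real.log n - α * Real.log T) = 0 := by
        refine hW.zero _ ?_
        rw [abs_of_nonneg (by linarith)]
        linarith
      rw [Fof_bgf, h5]
      simp

theorem err_bgf {η1 η2 : ℝ} {χ : ℝ → ℝ} (h : Pc η1 η2 χ) {B : ℝ → ℂ} {B0 : ℝ} (hB : ∀ v, ‖B v‖ ≤ B0) (T α : ℝ) :
    ∫ ξ, ‖Fof (bgf χ B T α) (α * Real.log T) ξ‖ * Real.exp (-(ξ / 2)) ≤
      2 * Real.pi * B0 * ∫ η, |Wof χ η| := by
  have hi : Integrable fun η => |Wof χ η| := by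
    refine (psf_Wof_smooth h).continuous.abs.integrable_of_hasCompactSupport ?_
    refine HasCompactSupport.intro (isCompact_Icc (a := η1) (b := η2)) fun x hx => ?_
    rw [Set.mem_Icc, not_and_or, not_le, not_le] at hx
    rw [psf_Wof_zero h x (hx.imp le_of_lt le_of_lt), abs_zero]
  have h2 := integral_sub_right_eq_self (μ := volume) (fun η => |Wof χ η|) (α * Real.log T)
  rw [← h2, ← integral_const_mul]
  refine integral_mono_of_nonneg (Filter.Eventually.of_forall fun ξ => by positivity) ?_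
    (Filter.Eventually.of_forall fun ξ => ?_)
  · exact (hi.comp_sub_right (α * Real.log T)).const_mul _
  · simp only
    rw [Fof_bgf, norm_neg, norm_mul, Complex.norm_real, Real.norm_eq_abs, RCLike.norm_conj]
    have h2 : |2 * Real.pi * Real.exp (ξ / 2) * Wof χ (ξ - α * Real.log T)|
        = 2 * Real.pi * Real.exp (ξ / 2) * |Wof χ (ξ - α * Real.log T)| := by
      rw [abs_mul, abs_of_pos (by positivity)]
    rw [h2]
    have h3 : Real.exp (ξ / 2) * Real.exp (-(ξ / 2)) = 1 := by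
      rw [← Real.exp_add, add_neg_cancel, Real.exp_zero]
    calc 2 * Real.pi * Real.exp (ξ / 2) * |Wof χ (ξ - α * Real.log T)| *
          ‖B (Real.exp ξ)‖ * Real.exp (-(ξ / 2))
        = 2 * Real.pi * ‖B (Real.exp ξ)‖ *
          |Wof χ (ξ - α * Real.log T)| * (Real.exp (ξ / 2) * Real.exp (-(ξ / 2))) := by ring
      _ ≤ 2 * Real.pi * B0 * |Wof χ (ξ - α * Real.log T)| * 1 := by
          rw [h3]
          have := hB (Real.exp ξ)
          gcongr
      _ = _ := by ring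

/-- the integrals of `bet2` against a weight: `swp` for every term -/
theorem swp_sum {φ : ℝ → ℝ} (hφ : PH φ) {V : ℝ → ℂ} (hV : Continuous V) (hVc : HasCompactSupport V) {H : ℝ} (hH : 0 < H)
    {x g C : ℝ} (N : ℕ) (c : ℕ → ℝ) (hB : ∀ θ : ℝ, 1 / (4 * H) ≤ θ → θ ≤ 1 / (2 * H) →
      ‖∫ η, V η * Complex.exp (Complex.I * ((g * η - 2 * Real.pi * x * θ * Real.exp η : ℝ) : ℂ))‖ ≤ C) :
    ‖∫ η, V η * ((starRingEnd ℂ) (bet2 φ H N c (x * Real.exp η)) *
      Complex.exp (Complex.I * ((g * η : ℝ) : ℂ)))‖ ≤ (∑ m ∈ Icc 1 N, |c m|) * ((∫ t, φ t) / H * C) := by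
  have hΦ : Continuous (Ph φ H) := (Ph_smooth hφ hH).continuous
  have e : ∀ η, V η * ((starRingEnd ℂ) (bet2 φ H N c (x * Real.exp η)) *
      Complex.exp (Complex.I * ((g * η : ℝ) : ℂ))) = ∑ m ∈ Icc 1 N, (c m : ℂ) *
      (V η * ((starRingEnd ℂ) (Ph φ H (x * Real.exp η - m)) *
        Complex.exp (Complex.I * ((g * η : ℝ) : ℂ)))) := by
    intro η
    unfold bet2
    rw [map_sum, Finset.sum_mul, Finset.mul_sum]
    refine Finset.sum_congr rfl fun m _ => ?_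
    rw [map_mul, Complex.conj_ofReal]
    ring
  have hint : ∀ m : ℕ, Integrable fun η => (c m : ℂ) *
      (V η * ((starRingEnd ℂ) (Ph φ H (x * Real.exp η - m)) *
        Complex.exp (Complex.I * ((g * η : ℝ) : ℂ)))) := by
    intro m
    refine Integrable.const_mul ?_ _
    have hc : Continuous fun η => V η * ((starRingEnd ℂ) (Ph φ H (x * Real.exp η - m)) *
        Complex.exp (Complex.I * ((g * η : ℝ) : ℂ))) := by
      refine hV.mul (Continuous.mul ?_ (by fun_prop))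
      exact Complex.continuous_conj.comp (hΦ.comp (by fun_prop))
    exact hc.integrable_of_hasCompactSupport hVc.mul_right
  simp only [e]
  rw [integral_finsetSum _ fun m _ => hint m, Finset.sum_mul]
  refine norm_sum_le_of_le _ fun m _ => ?_
  rw [integral_const_mul, norm_mul, Complex.norm_real, Real.norm_eq_abs]
  exact mul_le_mul_of_nonneg_left (swp hφ hV hVc hH hB) (abs_nonneg _)

end H69BG
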