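import Pool.Agent.H83.ZS.Defs

/-!
# SMW: `∑ w_i/(T² + γ_i²) ≤ C T^{-3/5}`

`T ≥ 1`: `T² + γ² = (T² + γ²)^{3/10} (T² + γ²)^{7/10} ≥ T^{3/5} (1 + γ²)^{7/10}`. So it suffices that `∑ w_i (1 + γ_i²)^{-7/10}` converges.
For each `i` let `n = ⌊γ_i⌋`: `|γ_i - n| ≤ 1`, `1 ≤ 2/(1 + (n - γ_i)²)`, `1 + n² ≤ 3 (1 + γ_i²)` (`n² ≤ 2 γ_i² + 2`), so
`w_i (1 + γ_i²)^{-7/10} ≤ 6 (1 + n²)^{-7/10} w_i/(1 + (n - γ_i)²) ≤ 6 ∑_{n ∈ ℤ} (1 + n²)^{-7/10} w_i/(1 + (n - γ_i)²)`.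
Sum over `i`, interchange (`ENNReal.tsum_comm`, or `Summable` of a nonnegative function on the product: `summable_prod_of_nonneg`), and use
`Z.boundW` (the inner sums are summable by `Z.hasSum`: `w_i * pk 1 (t - γ_i) = w_i/(1 + (t - γ_i)²)`):
`≤ 6 C ∑_{n ∈ ℤ} (1 + n²)^{-7/10} (1 + |n|)^{1/4} ≤ 12 C ∑_{n ∈ ℤ} (1 + |n|)^{-23/20} < ∞` (`(1 + |n|)² ≤ 2 (1 + n²)`).
-/

open MeasureTheory Finset H69LB
open scoped ContDiff

namespace H69BG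

theorem Smw_int : Summable (fun n : ℤ => (1 + (n : ℝ) ^ 2) ^ (-(7 / 10) : ℝ) *
    (1 + |(n : ℝ)|) ^ (1 / 4 : ℝ)) := by
  have h0 : Summable (fun n : ℤ => 2 * |(n : ℝ)| ^ (-(23 / 20) : ℝ)) :=
    (Real.summable_abs_int_rpow (by norm_num)).mul_left 2
  refine Summable.of_norm_bounded_eventually h0 ?_
  have h1 : ∀ᶠ n : ℤ in Filter.cofinite, n ≠ 0 := by
    have := (Set.finite_singleton (0 : ℤ)).compl_mem_cofinite
    filter_upwards [this] with n hn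
    simpa using hn
  filter_upwards [h1] with n hn
  have hn1 : (1 : ℝ) ≤ |(n : ℝ)| := by
    rw [← Int.cast_abs]
    exact_mod_cast Int.one_le_abs hn
  have hn0 : (0 : ℝ) < |(n : ℝ)| := by linarith
  rw [Real.norm_of_nonneg (by positivity)]
  have a1 : (1 + (n : ℝ) ^ 2) ^ (-(7 / 10) : ℝ) ≤ |(n : ℝ)| ^ (-(7 / 5) : ℝ) := by
    have e : |(n : ℝ)| ^ (-(7 / 5) : ℝ) = (|(n : ℝ)| ^ (2 : ℝ)) ^ (-(7 / 10) : ℝ) := by
      rw [← Real.rpow_mul hn0.le]; norm_num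
    rw [e]
    refine Real.rpow_le_rpow_of_nonpos (by positivity) ?_ (by norm_num)
    rw [Real.rpow_two, sq_abs]
    linarith
  have a2 : (1 + |(n : ℝ)|) ^ (1 / 4 : ℝ) ≤ 2 * |(n : ℝ)| ^ (1 / 4 : ℝ) := by
    calc (1 + |(n : ℝ)|) ^ (1 / 4 : ℝ) ≤ (2 * |(n : ℝ)|) ^ (1 / 4 : ℝ) :=
          Real.rpow_le_rpow (by positivity) (by linarith) (by norm_num)
      _ = 2 ^ (1 / 4 : ℝ) * |(n : ℝ)| ^ (1 / 4 : ℝ) := Real.mul_rpow (by norm_num) hn0.le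
      _ ≤ 2 * |(n : ℝ)| ^ (1 / 4 : ℝ) := by
          refine mul_le_mul_of_nonneg_right ?_ (by positivity)
          calc (2 : ℝ) ^ (1 / 4 : ℝ) ≤ 2 ^ (1 : ℝ) :=
                Real.rpow_le_rpow_of_exponent_le (by norm_num) (by norm_num)
            _ = 2 := Real.rpow_one 2
  calc (1 + (n : ℝ) ^ 2) ^ (-(7 / 10) : ℝ) * (1 + |(n : ℝ)|) ^ (1 / 4 : ℝ)
      ≤ |(n : ℝ)| ^ (-(7 / 5) : ℝ) * (2 * |(n : ℝ)| ^ (1 / 4 : ℝ)) :=
        mul_le_mul a1 a2 (by positivity) (by positivity)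
    _ = 2 * (|(n : ℝ)| ^ (-(7 / 5) : ℝ) * |(n : ℝ)| ^ (1 / 4 : ℝ)) := by ring
    _ = 2 * |(n : ℝ)| ^ (-(23 / 20) : ℝ) := by
        rw [← Real.rpow_add hn0]; norm_num

theorem sum_w {ι : Type} [Countable ι] {γ w : ι → ℝ} {F : ℝ → Finset ι} {A : ℝ → ℝ} {k0 : ℝ} (Z : Zer γ w F A k0) :
    ∃ C : ℝ, 0 ≤ C ∧ ∀ T : ℝ, 1 ≤ T → Summable (fun i => w i / (T ^ 2 + γ i ^ 2)) ∧
      ∑' i, w i / (T ^ 2 + γ i ^ 2) ≤ C * T ^ (-(3 / 5) : ℝ) := by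
  obtain ⟨C0, hC0, hW⟩ := Z.boundW
  have hw := Z.w_nonneg
  have hS : ∀ t : ℝ, Summable (fun i => w i / (1 + (t - γ i) ^ 2)) := by
    intro t
    refine (Z.hasSum t).summable.congr (fun i => ?_)
    unfold pk
    rw [one_pow, mul_one_div]
  let f : ℤ × ι → ℝ := fun x => (1 + (x.1 : ℝ) ^ 2) ^ (-(7 / 10) : ℝ) *
    (w x.2 / (1 + ((x.1 : ℝ) - γ x.2) ^ 2))
  have hf0 : 0 ≤ f := fun x =>
    mul_nonneg (by positivity) (div_nonneg (hw _) (by positivity))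
  have hf : Summable f := by
    rw [summable_prod_of_nonneg hf0]
    refine ⟨fun n => (hS n).mul_left ((1 + (n : ℝ) ^ 2) ^ (-(7 / 10) : ℝ)), ?_⟩
    refine Summable.of_nonneg_of_le (fun n => tsum_nonneg fun i => hf0 (n, i)) (fun n => ?_)
      (Smw_int.mul_left C0)
    have e : ∑' i, f (n, i) = (1 + (n : ℝ) ^ 2) ^ (-(7 / 10) : ℝ) *
        ∑' i, w i / (1 + ((n : ℝ) - γ i) ^ 2) := by
      rw [← tsum_mul_left]
    rw [e]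
    calc (1 + (n : ℝ) ^ 2) ^ (-(7 / 10) : ℝ) * ∑' i, w i / (1 + ((n : ℝ) - γ i) ^ 2)
        ≤ (1 + (n : ℝ) ^ 2) ^ (-(7 / 10) : ℝ) * (C0 * (1 + |(n : ℝ)|) ^ (1 / 4 : ℝ)) :=
          mul_le_mul_of_nonneg_left (hW n) (by positivity)
      _ = C0 * ((1 + (n : ℝ) ^ 2) ^ (-(7 / 10) : ℝ) * (1 + |(n : ℝ)|) ^ (1 / 4 : ℝ)) := by ring
  have hfc : Summable (fun i => f (⌊γ i⌋, i)) :=
    hf.comp_injective (i := fun i : ι => ((⌊γ i⌋ : ℤ), i)) (fun a b h => (Prod.ext_iff.1 h).2)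
  have hg : Summable (fun i => w i * (1 + γ i ^ 2) ^ (-(7 / 10) : ℝ)) := by
    refine Summable.of_nonneg_of_le (fun i => mul_nonneg (hw i) (by positivity)) (fun i => ?_)
      (hfc.mul_left 6)
    set n : ℝ := ((⌊γ i⌋ : ℤ) : ℝ) with hn
    have hn1 : n ≤ γ i := Int.floor_le _
    have hn2 : γ i < n + 1 := Int.lt_floor_add_one _
    have hd : (γ i - n) ^ 2 ≤ 1 := by nlinarith
    have h1 : 1 + n ^ 2 ≤ 3 * (1 + γ i ^ 2) := by nlinarith [sq_nonneg (2 * γ i - n), sq_nonneg (γ i)]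
    have h2 : w i ≤ 2 * (w i / (1 + (n - γ i) ^ 2)) := by
      rw [mul_div_assoc', le_div_iff₀ (by positivity)]
      have : (n - γ i) ^ 2 ≤ 1 := by nlinarith
      nlinarith [hw i]
    have h3 : (1 + γ i ^ 2) ^ (-(7 / 10) : ℝ) ≤ 3 * (1 + n ^ 2) ^ (-(7 / 10) : ℝ) := by
      have e1 : (1 + γ i ^ 2) ^ (-(7 / 10) : ℝ) ≤ ((1 / 3) * (1 + n ^ 2)) ^ (-(7 / 10) : ℝ) :=
        Real.rpow_le_rpow_of_nonpos (by positivity) (by linarith) (by norm_num)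
      rw [Real.mul_rpow (by norm_num) (by positivity)] at e1
      have e2 : ((1 : ℝ) / 3) ^ (-(7 / 10) : ℝ) ≤ 3 := by
        rw [one_div, Real.inv_rpow (by norm_num), ← Real.rpow_neg (by norm_num), neg_neg]
        calc (3 : ℝ) ^ (7 / 10 : ℝ) ≤ 3 ^ (1 : ℝ) :=
              Real.rpow_le_rpow_of_exponent_le (by norm_num) (by norm_num)
          _ = 3 := Real.rpow_one 3
      exact e1.trans (mul_le_mul_of_nonneg_right e2 (by positivity))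
    calc w i * (1 + γ i ^ 2) ^ (-(7 / 10) : ℝ)
        ≤ (2 * (w i / (1 + (n - γ i) ^ 2))) * (3 * (1 + n ^ 2) ^ (-(7 / 10) : ℝ)) :=
          mul_le_mul h2 h3 (by positivity)
            (mul_nonneg (by norm_num) (div_nonneg (hw _) (by positivity)))
      _ = 6 * ((1 + n ^ 2) ^ (-(7 / 10) : ℝ) * (w i / (1 + (n - γ i) ^ 2))) := by ring
  have key : ∀ T : ℝ, 1 ≤ T → ∀ i, w i / (T ^ 2 + γ i ^ 2) ≤
      T ^ (-(3 / 5) : ℝ) * (w i * (1 + γ i ^ 2) ^ (-(7 / 10) : ℝ)) := by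
    intro T hT i
    have hT0 : 0 < T := by linarith
    have hP : 0 < T ^ 2 + γ i ^ 2 := by positivity
    have e : (T ^ 2 + γ i ^ 2)⁻¹ =
        (T ^ 2 + γ i ^ 2) ^ (-(3 / 10) : ℝ) * (T ^ 2 + γ i ^ 2) ^ (-(7 / 10) : ℝ) := by
      rw [← Real.rpow_add hP, ← Real.rpow_neg_one]; norm_num
    have b1 : (T ^ 2 + γ i ^ 2) ^ (-(3 / 10) : ℝ) ≤ T ^ (-(3 / 5) : ℝ) := by
      have e' : T ^ (-(3 / 5) : ℝ) = (T ^ (2 : ℝ)) ^ (-(3 / 10) : ℝ) := by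
        rw [← Real.rpow_mul hT0.le]; norm_num
      rw [e']
      refine Real.rpow_le_rpow_of_nonpos (by positivity) ?_ (by norm_num)
      rw [Real.rpow_two]
      nlinarith [sq_nonneg (γ i)]
    have b2 : (T ^ 2 + γ i ^ 2) ^ (-(7 / 10) : ℝ) ≤ (1 + γ i ^ 2) ^ (-(7 / 10) : ℝ) :=
      Real.rpow_le_rpow_of_nonpos (by positivity) (by nlinarith) (by norm_num)
    rw [div_eq_mul_inv, e]
    calc w i * ((T ^ 2 + γ i ^ 2) ^ (-(3 / 10) : ℝ) * (T ^ 2 + γ i ^ 2) ^ (-(7 / 10) : ℝ))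
        ≤ w i * (T ^ (-(3 / 5) : ℝ) * (1 + γ i ^ 2) ^ (-(7 / 10) : ℝ)) :=
          mul_le_mul_of_nonneg_left (mul_le_mul b1 b2 (by positivity) (by positivity)) (hw i)
      _ = _ := by ring
  refine ⟨∑' i, w i * (1 + γ i ^ 2) ^ (-(7 / 10) : ℝ),
    tsum_nonneg fun i => mul_nonneg (hw i) (by positivity), fun T hT => ?_⟩
  have hsum : Summable (fun i => w i / (T ^ 2 + γ i ^ 2)) :=
    Summable.of_nonneg_of_le (fun i => div_nonneg (hw i) (by positivity)) (key T hT)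
      (hg.mul_left _)
  refine ⟨hsum, ?_⟩
  calc ∑' i, w i / (T ^ 2 + γ i ^ 2)
      ≤ ∑' i, T ^ (-(3 / 5) : ℝ) * (w i * (1 + γ i ^ 2) ^ (-(7 / 10) : ℝ)) :=
        hsum.tsum_le_tsum (key T hT) (hg.mul_left _)
    _ = T ^ (-(3 / 5) : ℝ) * ∑' i, (w i * (1 + γ i ^ 2) ^ (-(7 / 10) : ℝ)) := tsum_mul_left
    _ = _ := mul_comm _ _

end H69BG
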