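import Pool.Agent.H83.ZS.Defs

/-!
# TL2: the integrals over the zeros outside `(0, T]`, with the bound `C/(T² + γ²)`

Copy the proof of `H69LB.tail` (Pool/Agent/H69/LB/Nsp.lean, from line 282): it gets from `nsp` the bound `C/λ²` with
`λ = |γ| + δ1 T` for `γ ≤ 0` and `λ = δ γ` for `T < γ`. Only the last step changes: `m² (T² + γ²) ≤ λ²` with
`m = min 1 δ1` in the first case (`(|γ| + δ1 T)² ≥ γ² + δ1² T²`), and `λ² = δ² γ² ≥ δ² (T² + γ²)/2` in the second one.
-/

open MeasureTheory Finset H69LB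
open scoped ContDiff

namespace H69BG

theorem tail2 {η1 η2 : ℝ} (h12 : η1 < η2) {W : ℝ → ℝ} (hW : ContDiff ℝ ∞ W)
    (h0 : ∀ η, η ≤ η1 ∨ η2 ≤ η → W η = 0) {δ δ1 : ℝ} (hδ : 0 < δ) (hδ' : δ < 1) (hδ1 : 0 < δ1) :
    ∃ C : ℝ, 0 ≤ C ∧ ∀ γ om T : ℝ, 1 ≤ T → δ1 * T ≤ om * Real.exp η1 → om * Real.exp η2 ≤ (1 - δ) * T →
      (γ ≤ 0 ∨ T < γ) →
      ‖∫ η, ((W η : ℝ) : ℂ) * Complex.exp (Complex.I * ((γ * η - om * Real.exp η : ℝ) : ℂ))‖
        ≤ C / (T ^ 2 + γ ^ 2) := by
  obtain ⟨C, hC, h⟩ := nsp h12 hW h0 (Real.exp (-η2) * (1 / δ1 + 1 / δ))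
  set m := min 1 δ1 with hm
  have hm0 : 0 < m := lt_min one_pos hδ1
  refine ⟨C * (1 / m ^ 2 + 2 / δ ^ 2), by positivity, ?_⟩
  intro γ om T hT h1 h2 hγ
  have hTpos : 0 < T := by linarith
  have hom : 0 < om := by
    have : 0 < om * Real.exp η1 := lt_of_lt_of_le (by positivity) h1
    exact (pos_iff_pos_of_mul_pos this).2 (Real.exp_pos _)
  have homT : om ≤ Real.exp (-η2) * T := by
    have : om * Real.exp η2 ≤ T := by nlinarith
    calc om = Real.exp (-η2) * (om * Real.exp η2) := by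
          rw [Real.exp_neg]; field_simp
      _ ≤ Real.exp (-η2) * T := by gcongr
  have hsupp : Function.support (fun η => ((W η : ℝ) : ℂ) *
      Complex.exp (Complex.I * ((γ * η - om * Real.exp η : ℝ) : ℂ))) ⊆ Set.Ioc η1 η2 := by
    intro η hη
    rw [Function.mem_support] at hη
    by_contra hc
    apply hη
    have : W η = 0 := by
      apply h0
      rw [Set.mem_Ioc, not_and_or, not_lt, not_le] at hc
      rcases hc with hc | hc
      · exact Or.inl hc
      · exact Or.inr hc.le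
    rw [this]; simp
  rw [← intervalIntegral.integral_eq_integral_of_support_subset hsupp]
  rcases hγ with hγ | hγ
  · -- γ ≤ 0
    have hlam : 0 < |γ| + δ1 * T := by positivity
    have hle : om ≤ Real.exp (-η2) * (1 / δ1 + 1 / δ) * (|γ| + δ1 * T) := by
      refine homT.trans ?_
      rw [mul_assoc]
      refine mul_le_mul_of_nonneg_left ?_ (Real.exp_pos _).le
      calc T = 1 / δ1 * (δ1 * T) := by field_simp
        _ ≤ (1 / δ1 + 1 / δ) * (|γ| + δ1 * T) := by
          apply mul_le_mul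
          · have : 0 < 1 / δ := by positivity
            linarith
          · have := abs_nonneg γ
            linarith
          · positivity
          · positivity
    have := h γ om (|γ| + δ1 * T) hom hlam hle (by
      intro η hη
      have h3 : Real.exp η1 ≤ Real.exp η := Real.exp_le_exp.2 hη.1
      have h4 : δ1 * T ≤ om * Real.exp η := h1.trans (by gcongr)
      have h5 : 0 < om * Real.exp η := by positivity
      rw [abs_of_nonpos hγ, abs_of_nonpos (by linarith)]
      linarith)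
    refine this.trans ?_
    have hl2 : m ^ 2 * (T ^ 2 + γ ^ 2) ≤ (|γ| + δ1 * T) ^ 2 := by
      have g1 : m ≤ 1 := min_le_left _ _
      have g2 : m ≤ δ1 := min_le_right _ _
      have g3 : m * (|γ| + T) ≤ |γ| + δ1 * T := by
        have a1 : m * |γ| ≤ |γ| := by nlinarith [abs_nonneg γ]
        have a2 : m * T ≤ δ1 * T := by gcongr
        linarith
      calc m ^ 2 * (T ^ 2 + γ ^ 2) ≤ m ^ 2 * (|γ| + T) ^ 2 := by
            have : T ^ 2 + γ ^ 2 ≤ (|γ| + T) ^ 2 := by
              nlinarith [sq_abs γ, abs_nonneg γ, mul_nonneg (abs_nonneg γ) hTpos.le]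
            gcongr
        _ = (m * (|γ| + T)) ^ 2 := by ring
        _ ≤ (|γ| + δ1 * T) ^ 2 := by
            have : 0 ≤ m * (|γ| + T) := by positivity
            gcongr
    calc C / (|γ| + δ1 * T) ^ 2 ≤ C / (m ^ 2 * (T ^ 2 + γ ^ 2)) := by
          apply div_le_div_of_nonneg_left hC (by positivity) hl2
      _ = C * (1 / m ^ 2) / (T ^ 2 + γ ^ 2) := by field_simp
      _ ≤ C * (1 / m ^ 2 + 2 / δ ^ 2) / (T ^ 2 + γ ^ 2) := by
          gcongr
          have : 0 < 2 / δ ^ 2 := by positivity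
          linarith
  · -- T < γ
    have hγ0 : 0 < γ := by linarith
    have hlam : 0 < δ * γ := by positivity
    have hle : om ≤ Real.exp (-η2) * (1 / δ1 + 1 / δ) * (δ * γ) := by
      refine homT.trans ?_
      rw [mul_assoc]
      refine mul_le_mul_of_nonneg_left ?_ (Real.exp_pos _).le
      calc T ≤ γ := hγ.le
        _ = 1 / δ * (δ * γ) := by field_simp
        _ ≤ (1 / δ1 + 1 / δ) * (δ * γ) := by
          have : 0 < 1 / δ1 := by positivity
          gcongr
          linarith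
    have := h γ om (δ * γ) hom hlam hle (by
      intro η hη
      have h3 : Real.exp η ≤ Real.exp η2 := Real.exp_le_exp.2 hη.2
      have h4 : om * Real.exp η ≤ (1 - δ) * T := le_trans (by gcongr) h2
      have h5 : (1 - δ) * T ≤ (1 - δ) * γ := by
        have : 0 ≤ 1 - δ := by linarith
        gcongr
      rw [abs_of_nonneg (by nlinarith)]
      linarith)
    refine this.trans ?_
    have hl2 : δ ^ 2 / 2 * (T ^ 2 + γ ^ 2) ≤ (δ * γ) ^ 2 := by
      have h6 : T ^ 2 ≤ γ ^ 2 := by
        have : T ≤ γ := hγ.le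
        gcongr
      have h5 : 0 < δ ^ 2 := by positivity
      nlinarith [mul_nonneg h5.le (sub_nonneg.2 h6)]
    calc C / (δ * γ) ^ 2 ≤ C / (δ ^ 2 / 2 * (T ^ 2 + γ ^ 2)) := by
          apply div_le_div_of_nonneg_left hC (by positivity) hl2
      _ = C * (2 / δ ^ 2) / (T ^ 2 + γ ^ 2) := by field_simp
      _ ≤ C * (1 / m ^ 2 + 2 / δ ^ 2) / (T ^ 2 + γ ^ 2) := by
          gcongr
          have : 0 < 1 / m ^ 2 := by positivity
          linarith

end H69BG
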