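import Pool.Agent.H83.ZS.Psf
import Pool.Agent.H83.ZS.Tl2
import Pool.Agent.H83.ZS.Smw
import Pool.Agent.H69.BG.Crx

/-!
# Z2A: the pieces of the zero side of the second comparison function
-/

open MeasureTheory Finset H69LB
open scoped ContDiff

namespace H69BG

theorem z2_large (M : ℝ) : ∃ x0 : ℝ, 1 ≤ x0 ∧ ∀ x, x0 ≤ x → Real.exp (M + 1) ≤ x ^ (1 / 10 : ℝ) := by
  have h := (tendsto_rpow_atTop (by norm_num : (0:ℝ) < 1/10)).eventually_ge_atTop (Real.exp (M + 1))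
  obtain ⟨x0, hx0⟩ := Filter.eventually_atTop.1 h
  exact ⟨max x0 1, le_max_right _ _, fun x hx => hx0 x ((le_max_left _ _).trans hx)⟩

theorem z2_coef (M : ℝ) : ∃ x0 : ℝ, 1 ≤ x0 ∧ ∀ x, x0 ≤ x → ∀ m ∈ Icc 1 (NN (M + 1) x),
    |g2 x (m : ℤ)| ≤ x ^ (3 * uu) := by
  obtain ⟨x1, hx1, h1⟩ := z2_large M
  obtain ⟨x2, h2⟩ := g2_bd
  refine ⟨max x1 x2, hx1.trans (le_max_left _ _), fun x hx m hm => ?_⟩
  have hxx1 := (le_max_left _ _).trans hx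
  have hxx2 := (le_max_right _ _).trans hx
  rw [Finset.mem_Icc] at hm
  have hx0 : 0 < x := by linarith
  refine h2 x hxx2 m (by exact_mod_cast (by omega : m ≠ 0)) ?_
  have h3 : (m : ℝ) ≤ x * Real.exp (M + 1) := (Nat.le_floor_iff (by positivity)).1 hm.2
  have h4 : x ^ (11 / 10 : ℝ) = x * x ^ (1 / 10 : ℝ) := by
    rw [show (11 / 10 : ℝ) = 1 + 1 / 10 by norm_num, Real.rpow_add hx0, Real.rpow_one]
  rw [h4]
  have h5 := h1 x hxx1
  have h6 : |((m : ℤ) : ℝ)| = m := by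
    rw [Int.cast_natCast, abs_of_nonneg (by positivity)]
  rw [h6]
  exact h3.trans (by gcongr)

theorem z2_sumc (M : ℝ) : ∃ x0 : ℝ, 1 ≤ x0 ∧ ∀ x, x0 ≤ x →
    ∑ m ∈ Icc 1 (NN (M + 1) x), |g2 x (m : ℤ)| ≤ x * Real.exp (M + 1) * x ^ (3 * uu) := by
  obtain ⟨x1, hx1, h1⟩ := z2_coef M
  refine ⟨x1, hx1, fun x hx => ?_⟩
  have hx0 : 0 < x := by linarith
  refine (Finset.sum_le_card_nsmul _ _ _ (h1 x hx)).trans ?_
  rw [nsmul_eq_mul, Nat.card_Icc, add_tsub_cancel_right]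
  have h3 : (NN (M + 1) x : ℝ) ≤ x * Real.exp (M + 1) := Nat.floor_le (by positivity)
  gcongr

theorem z2_B0 {φ : ℝ → ℝ} (hφ : PH φ) (M : ℝ) : ∃ C x0 : ℝ, 0 ≤ C ∧ 1 ≤ x0 ∧ ∀ x, x0 ≤ x → ∀ H : ℝ, 0 < H →
    ∀ v, ‖be2 φ M x H v‖ ≤ C * (1 + 1 / H) * x ^ (3 * uu) := by
  obtain ⟨x1, hx1, h1⟩ := z2_coef M
  obtain ⟨C, hC, h2⟩ := Ph_sum hφ
  refine ⟨C, x1, hC, hx1, fun x hx H hH v => ?_⟩
  have hx0 : 0 < x := by linarith
  have h3 := h2 H hH v ((Icc 1 (NN (M + 1) x)).map Nat.castEmbedding)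
  rw [Finset.sum_map] at h3
  simp only [Nat.castEmbedding_apply, Int.cast_natCast] at h3
  unfold be2
  calc ‖∑ m ∈ Icc 1 (NN (M + 1) x), (g2 x m : ℂ) * Ph φ H (v - m)‖
      ≤ ∑ m ∈ Icc 1 (NN (M + 1) x), x ^ (3 * uu) * ‖Ph φ H (v - m)‖ := by
        refine norm_sum_le_of_le _ fun m hm => ?_
        rw [norm_mul, Complex.norm_real, Real.norm_eq_abs]
        exact mul_le_mul_of_nonneg_right (h1 x hx m hm) (norm_nonneg _)
    _ = x ^ (3 * uu) * ∑ m ∈ Icc 1 (NN (M + 1) x), ‖Ph φ H (v - m)‖ := by rw [Finset.mul_sum]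
    _ ≤ x ^ (3 * uu) * (C * (1 + 1 / H)) := by gcongr
    _ = _ := by ring

/-- relations between `T`, `x = T^α` and `H` -/
theorem z2_H (P : Par) (hP : P.Ok) {T : ℝ} (hT : 1 ≤ T) {α : ℝ} (hα : 1 ≤ α) :
    0 < HH P T α ∧ 1 / HH P T α ≤ 1 / P.cH ∧ T ^ α / HH P T α = T / P.cH := by
  have hT0 : 0 < T := by linarith
  have hc := hP.cH_pos
  have h1 : 1 ≤ T ^ (α - 1) := Real.one_le_rpow hT (by linarith)
  unfold HH
  refine ⟨by positivity, ?_, ?_⟩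
  · refine one_div_le_one_div_of_le hc ?_
    nlinarith
  · rw [Real.rpow_sub hT0, Real.rpow_one]
    have : T ^ α ≠ 0 := (Real.rpow_pos_of_pos hT0 α).ne'
    field_simp

/-- the pole -/
theorem z2_pole {η1 η2 : ℝ} {χ : ℝ → ℝ} (h : Pc η1 η2 χ) (P : Par) (hP : P.Ok) {M : ℝ}
    (hM1 : -M ≤ η1) (hM2 : η2 ≤ M) {φ : ℝ → ℝ} (hφ : PH φ) :
    ∃ C T0 : ℝ, 0 ≤ C ∧ 1 ≤ T0 ∧ ∀ T, T0 ≤ T → ∀ α, 1 ≤ α →
      ‖∫ ξ, Fof (b2 φ χ M P T α) (α * Real.log T) ξ * ((Real.exp (ξ / 2) : ℝ) : ℂ)‖ ≤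
        C * ((T ^ α) ^ (1 + 3 * uu) / T ^ 2) := by
  have hW : WS M (Wof χ) := Wof_WS h hM1 hM2
  have hW2 : WS M (fun η => Wof χ η * Real.exp η) :=
    ⟨hW.smooth.mul Real.contDiff_exp, fun η hη => by rw [hW.zero η hη, zero_mul]⟩
  obtain ⟨C3, hC3, hdof⟩ := dof hW2 3
  obtain ⟨x1, hx1, hsc⟩ := z2_sumc M
  set Iφ : ℝ := ∫ t, φ t with hIφ
  have hIφ0 : 0 < Iφ := hφ.pos
  have hc := hP.cH_pos
  refine ⟨2 * Real.pi * Real.exp (M + 1) * (Iφ / P.cH) * (C3 * (4 * P.cH) ^ 3), x1, by positivity, hx1,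
    fun T hT α hα => ?_⟩
  have hT1 : 1 ≤ T := hx1.trans hT
  have hT0 : 0 < T := by linarith
  obtain ⟨hH, hH1, hxH⟩ := z2_H P hP hT1 hα
  have hxT : T ≤ T ^ α := by
    calc T = T ^ (1 : ℝ) := (Real.rpow_one T).symm
      _ ≤ T ^ α := Real.rpow_le_rpow_of_exponent_le hT1 hα
  have hx0 : 0 < T ^ α := by linarith
  have hsc' := hsc (T ^ α) (hT.trans hxT)
  rw [b2_eq, pole_bgf χ _ hT0 α, be2_eq, norm_mul, norm_neg]
  have n1 : ‖2 * (Real.pi : ℂ) * ((T ^ α : ℝ) : ℂ)‖ = 2 * Real.pi * T ^ α := by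
    rw [norm_mul, norm_mul, Complex.norm_real, Complex.norm_real, Real.norm_eq_abs, Real.norm_eq_abs,
      abs_of_pos Real.pi_pos, abs_of_pos hx0]
    simp
  rw [n1]
  set V : ℝ → ℂ := fun η => ((Wof χ η * Real.exp η : ℝ) : ℂ) with hV
  have hVc : Continuous V := Complex.continuous_ofReal.comp hW2.smooth.continuous
  have hVs : HasCompactSupport V := by
    refine HasCompactSupport.intro (isCompact_Icc (a := -M) (b := M)) fun x hx => ?_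
    have h : M ≤ |x| := by
      by_contra h
      push Not at h
      exact hx ⟨(abs_lt.mp h).1.le, (abs_lt.mp h).2.le⟩
    rw [hV]
    simp only
    rw [hW.zero x h, zero_mul, Complex.ofReal_zero]
  have hB : ∀ θ : ℝ, 1 / (4 * HH P T α) ≤ θ → θ ≤ 1 / (2 * HH P T α) →
      ‖∫ η, V η * Complex.exp (Complex.I * ((0 * η - 2 * Real.pi * (T ^ α) * θ * Real.exp η : ℝ) : ℂ))‖ ≤
        C3 * (4 * P.cH) ^ 3 / T ^ 3 := by
    intro θ hθ1 _
    have hlow : T / (4 * P.cH) ≤ T ^ α * θ := by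
      have e : T / (4 * P.cH) = T ^ α * (1 / (4 * HH P T α)) := by
        have : T / (4 * P.cH) = (T / P.cH) / 4 := by ring
        rw [this, ← hxH]
        ring
      rw [e]
      gcongr
    have hpos : 0 < T / (4 * P.cH) := by positivity
    have hp2 : 0 < T ^ α * θ := hpos.trans_le hlow
    have e2 : ∀ η : ℝ, V η * Complex.exp (Complex.I * ((0 * η - 2 * Real.pi * (T ^ α) * θ * Real.exp η : ℝ) : ℂ))
        = ((Wof χ η * Real.exp η : ℝ) : ℂ) * ee (-(T ^ α * θ) * Real.exp η) := by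
      intro η
      rw [hV]
      simp only
      congr 1
      unfold ee
      congr 1
      push_cast
      ring
    simp only [e2]
    refine (hdof _ (neg_ne_zero.2 hp2.ne')).trans ?_
    rw [abs_neg, abs_of_pos hp2]
    calc C3 / (T ^ α * θ) ^ 3 ≤ C3 / (T / (4 * P.cH)) ^ 3 := by gcongr
      _ = C3 * (4 * P.cH) ^ 3 / T ^ 3 := by field_simp
  have h1 := swp_sum hφ hVc hVs hH (x := T ^ α) (g := 0) (NN (M + 1) (T ^ α)) (fun m => g2 (T ^ α) m) hB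
  have h2 : (T ^ α) ^ (1 + 3 * uu) = T ^ α * (T ^ α) ^ (3 * uu) := by
    rw [Real.rpow_add hx0, Real.rpow_one]
  calc 2 * Real.pi * T ^ α * ‖∫ η, V η * ((starRingEnd ℂ) (bet2 φ (HH P T α) (NN (M + 1) (T ^ α))
          (fun m => g2 (T ^ α) m) (T ^ α * Real.exp η)) * Complex.exp (Complex.I * ((0 * η : ℝ) : ℂ)))‖
      ≤ 2 * Real.pi * T ^ α * ((∑ m ∈ Icc 1 (NN (M + 1) (T ^ α)), |g2 (T ^ α) m|) *
          (Iφ / HH P T α * (C3 * (4 * P.cH) ^ 3 / T ^ 3))) := by gcongr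
    _ ≤ 2 * Real.pi * T ^ α * ((T ^ α * Real.exp (M + 1) * (T ^ α) ^ (3 * uu)) *
          (Iφ / HH P T α * (C3 * (4 * P.cH) ^ 3 / T ^ 3))) := by gcongr
    _ = 2 * Real.pi * Real.exp (M + 1) * Iφ * (C3 * (4 * P.cH) ^ 3) *
          (T ^ α * (T ^ α) ^ (3 * uu)) * (T ^ α / HH P T α) / T ^ 3 := by ring
    _ = 2 * Real.pi * Real.exp (M + 1) * (Iφ / P.cH) * (C3 * (4 * P.cH) ^ 3) *
          ((T ^ α) ^ (1 + 3 * uu) / T ^ 2) := by
        rw [hxH, h2]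
        field_simp

/-- the zeros outside `(0, T]` -/
theorem z2_tail {η1 η2 : ℝ} {χ : ℝ → ℝ} (h : Pc η1 η2 χ) (P : Par) (hP : P.Ok) {M : ℝ}
    (hcH : P.cH = 2 * Real.pi * Real.exp η2 / (1 - P.δ)) {φ : ℝ → ℝ} (hφ : PH φ) :
    ∃ C T0 : ℝ, 0 ≤ C ∧ 1 ≤ T0 ∧ ∀ T, T0 ≤ T → ∀ α, 1 ≤ α → ∀ g : ℝ, (g ≤ 0 ∨ T < g) →
      ‖PsiF (Fof (b2 φ χ M P T α) (α * Real.log T)) g‖ ≤
        C * (T * (T ^ α) ^ (1 / 2 + 3 * uu)) / (T ^ 2 + g ^ 2) := by
  have hWs : ContDiff ℝ ∞ (Wof χ) := psf_Wof_smooth h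
  have hW2 : ContDiff ℝ ∞ (fun η => Real.exp (η / 2) * Wof χ η) :=
    (by fun_prop : ContDiff ℝ ∞ fun η : ℝ => Real.exp (η / 2)).mul hWs
  have hW20 : ∀ η, η ≤ η1 ∨ η2 ≤ η → (fun η => Real.exp (η / 2) * Wof χ η) η = 0 := by
    intro η hη
    simp only
    rw [psf_Wof_zero h η hη, mul_zero]
  have hδ := hP.δ_pos
  have hδ' := hP.δ_lt
  obtain ⟨C3, hC3, htl⟩ := tail2 h.lt hW2 hW20 hδ hδ'
    (δ1 := (1 - P.δ) * Real.exp (η1 - η2) / 4) (by have := Real.exp_pos (η1 - η2); nlinarith)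
  obtain ⟨x1, hx1, hsc⟩ := z2_sumc M
  set Iφ : ℝ := ∫ t, φ t with hIφ
  have hIφ0 : 0 < Iφ := hφ.pos
  have hc := hP.cH_pos
  refine ⟨2 * Real.pi * Real.exp (M + 1) * (Iφ / P.cH) * C3, x1, by positivity, hx1,
    fun T hT α hα g hg => ?_⟩
  have hT1 : 1 ≤ T := hx1.trans hT
  have hT0 : 0 < T := by linarith
  obtain ⟨hH, hH1, hxH⟩ := z2_H P hP hT1 hα
  have hxT : T ≤ T ^ α := by
    calc T = T ^ (1 : ℝ) := (Real.rpow_one T).symm
      _ ≤ T ^ α := Real.rpow_le_rpow_of_exponent_le hT1 hα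
  have hx0 : 0 < T ^ α := by linarith
  have hsc' := hsc (T ^ α) (hT.trans hxT)
  rw [b2_eq, PsiF_bgf χ _ hT0 α g, be2_eq, norm_neg, norm_mul]
  have n1 : ‖2 * (Real.pi : ℂ) * ((Real.sqrt (T ^ α) : ℝ) : ℂ) *
      Complex.exp (Complex.I * ((α * Real.log T * g : ℝ) : ℂ))‖ = 2 * Real.pi * Real.sqrt (T ^ α) := by
    rw [norm_mul, norm_mul, norm_mul, Complex.norm_real, Complex.norm_real, Real.norm_eq_abs, Real.norm_eq_abs,
      abs_of_pos Real.pi_pos, abs_of_nonneg (Real.sqrt_nonneg _), mul_comm Complex.I,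
      Complex.norm_exp_ofReal_mul_I, mul_one]
    simp
  rw [n1]
  set V : ℝ → ℂ := fun η => ((Real.exp (η / 2) * Wof χ η : ℝ) : ℂ) with hV
  have hVc : Continuous V := Complex.continuous_ofReal.comp hW2.continuous
  have hVs : HasCompactSupport V := by
    refine HasCompactSupport.intro (isCompact_Icc (a := η1) (b := η2)) fun x hx => ?_
    rw [Set.mem_Icc, not_and_or, not_le, not_le] at hx
    rw [hV]
    simp only
    rw [psf_Wof_zero h x (hx.imp le_of_lt le_of_lt), mul_zero, Complex.ofReal_zero]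
  have hB : ∀ θ : ℝ, 1 / (4 * HH P T α) ≤ θ → θ ≤ 1 / (2 * HH P T α) →
      ‖∫ η, V η * Complex.exp (Complex.I * ((g * η - 2 * Real.pi * (T ^ α) * θ * Real.exp η : ℝ) : ℂ))‖ ≤
        C3 / (T ^ 2 + g ^ 2) := by
    intro θ hθ1 hθ2
    have hπ := Real.pi_pos
    refine htl g (2 * Real.pi * (T ^ α) * θ) T hT1 ?_ ?_ hg
    · have e : (1 - P.δ) * Real.exp (η1 - η2) / 4 * T =
          2 * Real.pi * (T ^ α) * (1 / (4 * HH P T α)) * Real.exp η1 := by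
        have e1 : 2 * Real.pi * (T ^ α) * (1 / (4 * HH P T α)) * Real.exp η1 =
          2 * Real.pi * Real.exp η1 / 4 * (T ^ α / HH P T α) := by ring
        rw [e1, hxH, hcH, Real.exp_sub]
        have : (1 - P.δ) ≠ 0 := by linarith
        have := Real.exp_ne_zero η2
        field_simp
      rw [e]
      gcongr
    · have e : 2 * Real.pi * (T ^ α) * (1 / (2 * HH P T α)) * Real.exp η2 = (1 - P.δ) * T / 2 := by
        have e1 : 2 * Real.pi * (T ^ α) * (1 / (2 * HH P T α)) * Real.exp η2 =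
          2 * Real.pi * Real.exp η2 / 2 * (T ^ α / HH P T α) := by ring
        rw [e1, hxH, hcH]
        have : (1 - P.δ) ≠ 0 := by linarith
        have := Real.exp_ne_zero η2
        field_simp
      have e2 : 2 * Real.pi * (T ^ α) * θ * Real.exp η2 ≤
          2 * Real.pi * (T ^ α) * (1 / (2 * HH P T α)) * Real.exp η2 := by gcongr
      have e3 : 0 < (1 - P.δ) * T := mul_pos (by linarith) hT0
      linarith
  have h1 := swp_sum hφ hVc hVs hH (x := T ^ α) (g := g) (NN (M + 1) (T ^ α)) (fun m => g2 (T ^ α) m) hB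
  have h2 : (T ^ α) ^ (1 / 2 + 3 * uu) = Real.sqrt (T ^ α) * (T ^ α) ^ (3 * uu) := by
    rw [Real.rpow_add hx0, Real.sqrt_eq_rpow]
  have hp : 0 < T ^ 2 + g ^ 2 := by positivity
  calc 2 * Real.pi * Real.sqrt (T ^ α) * ‖∫ η, V η * ((starRingEnd ℂ) (bet2 φ (HH P T α) (NN (M + 1) (T ^ α))
          (fun m => g2 (T ^ α) m) (T ^ α * Real.exp η)) * Complex.exp (Complex.I * ((g * η : ℝ) : ℂ)))‖
      ≤ 2 * Real.pi * Real.sqrt (T ^ α) * ((∑ m ∈ Icc 1 (NN (M + 1) (T ^ α)), |g2 (T ^ α) m|) *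
          (Iφ / HH P T α * (C3 / (T ^ 2 + g ^ 2)))) := by gcongr
    _ ≤ 2 * Real.pi * Real.sqrt (T ^ α) * ((T ^ α * Real.exp (M + 1) * (T ^ α) ^ (3 * uu)) *
          (Iφ / HH P T α * (C3 / (T ^ 2 + g ^ 2)))) := by gcongr
    _ = 2 * Real.pi * Real.exp (M + 1) * Iφ * C3 *
          (Real.sqrt (T ^ α) * (T ^ α) ^ (3 * uu)) * (T ^ α / HH P T α) / (T ^ 2 + g ^ 2) := by ring
    _ = 2 * Real.pi * Real.exp (M + 1) * (Iφ / P.cH) * C3 *
          (T * (T ^ α) ^ (1 / 2 + 3 * uu)) / (T ^ 2 + g ^ 2) := by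
        rw [hxH, h2]
        field_simp

end H69BG
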